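import Pool.Agent.helper7.CSG.SpecJ

/-! # csg:ABD (helper12): every obstacle has an admissible function with `‖Φ 0‖` bounded below. -/

set_option autoImplicit false

open Complex Metric Set Filter Topology MeasureTheory
open Pool.Agent.helper98.ILF
open HY (UD T S hd UN RM)
open PM (DD rm cx pd cr hdf)
open CSF (Sy it PB VC Lv Om PV hdx FC RL gg bt)

noncomputable section

namespace CSJ

/-- the step in coordinates: `F y = cx W (f a) (f (rm W' a y))`. -/
lemma ABD_step (hTDF : PM.TDF_stmt) (f : ℂ → ℂ) (hf : Differentiable ℂ f) (W W' : Set ℂ) (hW : DD W) (hW' : DD W')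
    (hm : MapsTo f W' W) (a : ℂ) (ha : a ∈ W') :
    DifferentiableOn ℂ (fun y => cx W (f a) (f (rm W' a y))) UD ∧ MapsTo (fun y => cx W (f a) (f (rm W' a y))) UD UD ∧
    cx W (f a) (f (rm W' a 0)) = 0 ∧
    (∀ y ∈ UD, rm W (f a) (cx W (f a) (f (rm W' a y))) = f (rm W' a y)) ∧
    (∀ y ∈ UD, deriv (rm W (f a)) (cx W (f a) (f (rm W' a y))) * deriv (fun y => cx W (f a) (f (rm W' a y))) y =
      deriv f (rm W' a y) * deriv (rm W' a) y) ∧
    ‖deriv (fun y => cx W (f a) (f (rm W' a y))) 0‖ = hdf f W' W a := by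
  obtain ⟨hWo, -, hWt⟩ := hTDF W hW
  obtain ⟨hWo', -, hWt'⟩ := hTDF W' hW'
  have hfa : f a ∈ W := hm ha
  obtain ⟨hRM, hcr, hcx0, -, hcxd, hb, hx⟩ := hWt (f a) hfa
  obtain ⟨hRM', hcr', hcx0', -, hcxd', hb', hx'⟩ := hWt' a ha
  have hUo : IsOpen UD := isOpen_ball
  have h0 : (0 : ℂ) ∈ UD := mem_ball_self one_pos
  set F : ℂ → ℂ := fun y => cx W (f a) (f (rm W' a y)) with hF
  have hin : ∀ y ∈ UD, f (rm W' a y) ∈ W := fun y hy => hm (hx' y hy).1
  have hFd : DifferentiableOn ℂ F UD := by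
    intro y hy
    have h1 : DifferentiableAt ℂ (rm W' a) y := (hRM'.dif y hy).differentiableAt (hUo.mem_nhds hy)
    have h2 : DifferentiableAt ℂ (fun y => f (rm W' a y)) y := (hf _).comp y h1
    have h3 : DifferentiableAt ℂ (cx W (f a)) (f (rm W' a y)) :=
      (hcxd _ (hin y hy)).differentiableAt (hWo.mem_nhds (hin y hy))
    exact (h3.comp y h2).differentiableWithinAt
  have hFm : MapsTo F UD UD := fun y hy => (hb _ (hin y hy)).1
  have hF0 : F 0 = 0 := by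
    show cx W (f a) (f (rm W' a 0)) = 0
    rw [hRM'.val]; exact hcx0
  have hr : ∀ y ∈ UD, rm W (f a) (F y) = f (rm W' a y) := fun y hy => (hb _ (hin y hy)).2.1
  have hder : ∀ y ∈ UD, deriv (rm W (f a)) (F y) * deriv F y = deriv f (rm W' a y) * deriv (rm W' a) y := by
    intro y hy
    have h1 : DifferentiableAt ℂ (rm W' a) y := (hRM'.dif y hy).differentiableAt (hUo.mem_nhds hy)
    have h2 : HasDerivAt (fun y => f (rm W' a y)) (deriv f (rm W' a y) * deriv (rm W' a) y) y :=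
      (hf _).hasDerivAt.comp y h1.hasDerivAt
    have h4 : DifferentiableAt ℂ F y := (hFd y hy).differentiableAt (hUo.mem_nhds hy)
    have h5 : DifferentiableAt ℂ (rm W (f a)) (F y) := (hRM.dif _ (hFm hy)).differentiableAt (hUo.mem_nhds (hFm hy))
    have h6 : HasDerivAt (fun y => rm W (f a) (F y)) (deriv (rm W (f a)) (F y) * deriv F y) y :=
      h5.hasDerivAt.comp y h4.hasDerivAt
    have he : (fun y => rm W (f a) (F y)) =ᶠ[𝓝 y] fun y => f (rm W' a y) := by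
      filter_upwards [hUo.mem_nhds hy] with z hz using hr z hz
    exact (h6.congr_of_eventuallyEq he.symm).unique h2
  refine ⟨hFd, hFm, hF0, hr, hder, ?_⟩
  have h7 := congrArg norm (hder 0 h0)
  rw [norm_mul, norm_mul, hF0, hRM'.val] at h7
  have h8 : cr W (f a) = ‖deriv (rm W (f a)) 0‖ := rfl
  have h9 : cr W' a = ‖deriv (rm W' a) 0‖ := rfl
  rw [← h8, ← h9] at h7
  unfold hdf
  rw [eq_div_iff hcr.ne', mul_comm]
  exact h7

theorem ABD (hHSB : HSB_stmt) (hACH : ACH_stmt) (hLVB : LVB_stmt) (hPBG : PL.PBG_stmt) (hTDF : PM.TDF_stmt)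
    (hTPT : PM.TPT_stmt) (hTSP : PM.TSP_stmt) (hTHC : PM.THC_stmt) : ABD_stmt := by
  intro b₀ hb0 hb1
  obtain ⟨r₀, hr0, hr1, hP⟩ := hPBG b₀ hb0 hb1
  refine ⟨r₀, hr0, ?_⟩
  intro Y hY V hV t p hp hnp hbt T₁ s hT1 hTt hs
  obtain ⟨k, rfl⟩ : ∃ k, T₁ = k + 1 := ⟨T₁ - 1, by omega⟩
  obtain ⟨hLd, hLadd, hLs, -, hL⟩ := hLVB Y hY
  obtain ⟨-, -, -, -, -, -, -, hLOm, hLVC, -⟩ := hL V hV
  -- the tubes
  have hxP : ∀ i j : ℕ, it Y i p ∈ PB Y V j := fun i j => (hLOm p hp i j).2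
  have hpP : ∀ j : ℕ, p ∈ PB Y V j := fun j => by
    have := hxP 0 j
    simpa [CSF.it] using this
  obtain ⟨hD0, hp0, -, -, -, hM0, -⟩ := hLVC t p (hpP t)
  obtain ⟨hDW, haW, -, -, -, -, -⟩ := hLVC (t - (k + 1)) (it Y (k + 1) p) (hxP _ _)
  obtain ⟨hDW', haW', -, -, -, hM', -⟩ := hLVC (t - k) (it Y k p) (hxP _ _)
  have hxs : it Y (k + 1) p = Y.f (it Y k p) := hLs k p
  have hmf : MapsTo Y.f (VC Y V (t - k) (it Y k p)) (VC Y V (t - (k + 1)) (it Y (k + 1) p)) := by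
    have h1 := hM' 1 (by omega)
    have h2 : it Y 1 = Y.f := by
      funext z
      have := hLs 0 z
      simpa [CSF.it] using this
    rw [h2, ← hxs, show t - k - 1 = t - (k + 1) by omega] at h1
    exact h1
  have hmk : MapsTo (it Y k) (VC Y V t p) (VC Y V (t - k) (it Y k p)) := hM0 k (by omega)
  -- the bounded loss of the step
  have hloss : b₀ ≤ hdf Y.f (VC Y V (t - k) (it Y k p)) (VC Y V (t - (k + 1)) (it Y (k + 1) p)) (it Y k p) := by
    obtain ⟨-, -, -, -, hch, -⟩ := hACH Y hY V hV p hp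
    obtain ⟨e1, e2, e3, e4, e5⟩ := hch (k + 1) t hTt
    obtain ⟨-, g2, g3, -, -⟩ := hch k t (by omega)
    have hfun : it Y (k + 1) = fun z => Y.f (it Y k z) := by
      funext z; exact hLs k z
    have hc := hTHC (VC Y V t p) (VC Y V (t - k) (it Y k p)) (VC Y V (t - (k + 1)) (it Y (k + 1) p)) (it Y k) Y.f
      hD0 hDW' hDW (hLd k).differentiableOn hY.dif.differentiableOn hmk hmf p hp0
    rw [← hfun] at hc
    obtain ⟨-, s2, s3, -⟩ := hTSP _ _ Y.f hDW' hDW hY.dif.differentiableOn hmf (it Y k p) haW'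
    have h1 : b₀ ≤ hdf (it Y (k + 1)) (VC Y V t p) (VC Y V (t - (k + 1)) (it Y (k + 1) p)) p := by
      calc b₀ ≤ hv Y V p t := hbt
        _ = _ := e1
        _ ≤ hdf (it Y (k + 1)) (VC Y V t p) (VC Y V (t - (k + 1)) (it Y (k + 1) p)) p * 1 :=
            mul_le_mul_of_nonneg_left e5 e2
        _ = _ := mul_one _
    rw [hc] at h1
    calc b₀ ≤ _ := h1
      _ ≤ 1 * hdf Y.f (VC Y V (t - k) (it Y k p)) (VC Y V (t - (k + 1)) (it Y (k + 1) p)) (it Y k p) :=
          mul_le_mul_of_nonneg_right g3 s2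
      _ = _ := one_mul _
  -- names
  set W : Set ℂ := VC Y V (t - (k + 1)) (it Y (k + 1) p) with hW
  set W' : Set ℂ := VC Y V (t - k) (it Y k p) with hW'
  set a' : ℂ := it Y k p with ha'
  have haW2 : Y.f a' ∈ W := by rw [← hxs]; exact haW
  have hk1 : k + 1 - 1 = k := rfl
  obtain ⟨hRM0, -⟩ := (hTDF _ hD0).2.2 p hp0
  have hrm0 : rm (VC Y V t p) p 0 = p := hRM0.val
  by_cases hsW : s ∈ W
  swap
  · refine ⟨fun _ => 1, Or.inl ⟨hsW, fun _ => rfl⟩, ?_⟩
    simpa using hr1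
  obtain ⟨hH1, hH2, hH3⟩ := hHSB Y hY W W' hDW hDW' hmf s hsW
  obtain ⟨-, -, hWt⟩ := hTDF W hDW
  obtain ⟨-, -, hWt'⟩ := hTDF W' hDW'
  by_cases hcase : r₀ ≤ pd W (Y.f a') s
  · -- the undivided function
    refine ⟨fun w => cx W s (Y.f (it Y k (rm (VC Y V t p) p w))), Or.inr ⟨hsW, fun z => cx W s (Y.f z), hH1, fun w => rfl⟩, ?_⟩
    have h1 := ((hH3 _ hH1).1 a' haW').2
    have h2 : ‖cx W s (Y.f (it Y k (rm (VC Y V t p) p 0)))‖ = ‖cx W s (Y.f a')‖ := by rw [hrm0]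
    show r₀ ≤ ‖cx W s (Y.f (it Y k (rm (VC Y V t p) p 0)))‖
    rw [h2]
    exact hcase.trans h1
  · -- the divided function
    push Not at hcase
    obtain ⟨hFd, hFm, hF0, hr, hder, hF1⟩ := ABD_step hTDF Y.f hY.dif W W' hDW hDW' hmf a' haW'
    obtain ⟨H, hUN, hHz, hH⟩ := hP _ hFd hFm hF0 (by rw [hF1]; exact hloss)
    have hpos : (0 : ℝ) < r₀ := hr0
    have hr0c : (r₀ : ℂ) ≠ 0 := by exact_mod_cast hr0.ne'
    obtain ⟨-, -, -, -, -, hbW, hxW⟩ := hWt (Y.f a') haW2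
    obtain ⟨hsUD, hsrm, hspd, -, -, hs0⟩ := hbW s hsW
    set y : ℂ := cx W (Y.f a') s / r₀ with hy
    have hyn : ‖y‖ = pd W (Y.f a') s / r₀ := by
      rw [hy, norm_div, ← hspd, Complex.norm_real, Real.norm_of_nonneg hr0.le]
    have hyU : y ∈ UD := by
      show y ∈ ball (0 : ℂ) 1
      rw [mem_ball_zero_iff, hyn, div_lt_one hr0]
      exact hcase
    obtain ⟨hFH, hH8, hHd⟩ := hH y hyU
    have hHU : H y ∈ UD := hUN.map hyU
    have hry : (r₀ : ℂ) * y = cx W (Y.f a') s := by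
      rw [hy]; field_simp
    obtain ⟨hxq1, hxq2, hxq3, hxq4⟩ := (hWt' a' haW').2.2.2.2.2.2 (H y) hHU
    set q : ℂ := rm W' a' (H y) with hq
    have hfq : Y.f q = s := by
      have h1 := hr (H y) hHU
      have h2 : cx W (Y.f a') (Y.f (rm W' a' (H y))) = cx W (Y.f a') s := by
        have := hFH
        rw [hry] at this
        exact this
      rw [← h1, h2, hsrm]
    have hdq : deriv Y.f q ≠ 0 := by
      intro h0
      have h1 := hder (H y) hHU
      rw [← hq, h0, zero_mul] at h1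
      have h2 : deriv (fun y => cx W (Y.f a') (Y.f (rm W' a' y))) (H y) ≠ 0 := by
        intro h3
        rw [h3, norm_zero] at hHd
        linarith
      have h3 : cx W (Y.f a') (Y.f q) ∈ UD := hFm hHU
      exact (mul_ne_zero (hxW _ h3).2.2.2 h2) h1
    obtain ⟨h, hHS, hmul⟩ := hH2 q hxq1 hfq hdq
    refine ⟨fun w => h (it Y k (rm (VC Y V t p) p w)), Or.inr ⟨hsW, h, hHS, fun w => rfl⟩, ?_⟩
    show r₀ ≤ ‖h (it Y k (rm (VC Y V t p) p 0))‖
    rw [hrm0, ← ha']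
    have hm1 := congrArg norm (hmul a' haW')
    rw [norm_mul] at hm1
    have hA : ‖cx W' q a'‖ = ‖H y‖ := by
      have h1 := ((hWt' q hxq1).2.2.2.2.2.1 a' haW').2.2.1
      have h2 := (hTPT W' hDW' a' haW' q hxq1 q hxq1).1
      rw [← h1, ← h2, hxq3]
    have hB : ‖cx W s (Y.f a')‖ = r₀ * ‖y‖ := by
      have h1 := ((hWt s hsW).2.2.2.2.2.1 (Y.f a') haW2).2.2.1
      have h2 := (hTPT W hDW (Y.f a') haW2 s hsW s hsW).1
      rw [← h1, ← h2, hyn]
      field_simp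
    rw [hA, hB] at hm1
    have hHle : ‖H y‖ ≤ ‖y‖ := by
      have hyU' : ‖y‖ < 1 := by
        have := hyU
        rwa [show UD = ball (0 : ℂ) 1 from rfl, mem_ball_zero_iff] at this
      exact Complex.norm_le_norm_of_mapsTo_ball hUN.dif (hUN.map.mono_right ball_subset_closedBall) hHz hyU'
    have hy0 : 0 < ‖y‖ := by
      rw [hyn]
      apply div_pos _ hr0
      rcases (((hWt (Y.f a') haW2).2.2.2.2.2.1 s hsW).2.2.2.2.1).lt_or_eq with h1 | h1
      · exact h1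
      · exfalso
        have h2 : s = Y.f a' := hs0 h1.symm
        apply hnp (k + 1)
        rw [hxs, ← h2]
        exact hs
    have hfin : r₀ * ‖y‖ ≤ ‖h a'‖ * ‖y‖ := by
      rw [← hm1]
      exact mul_le_mul_of_nonneg_left hHle (norm_nonneg _)
    exact le_of_mul_le_mul_right hfin hy0

end CSJ
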